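import Mathlib
import Pool.Agent.KS6_19.CP.Pan

open Finset

namespace Pool.Agent.Results.MP_712a2d_co.ToroidalClassification

/-- `S` is an `(n, c)`-placement: a set of `n * c` cells `(i, j)`, `0 ≤ i, j < n`, such that every
row `i = a`, every column `j = b`, every diagonal `i + j = k` and every diagonal `i - j = d`
contains at most `c` cells of `S`. -/
structure IsPlacement (n c : ℕ) (S : Finset (ℕ × ℕ)) : Prop where
  cells : ∀ p ∈ S, p.1 < n ∧ p.2 < n
  card : S.card = n * c
  rows : ∀ a : ℕ, (S.filter (fun p => p.1 = a)).card ≤ c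
  columns : ∀ b : ℕ, (S.filter (fun p => p.2 = b)).card ≤ c
  antidiagonals : ∀ k : ℕ, (S.filter (fun p => p.1 + p.2 = k)).card ≤ c
  diagonals : ∀ d : ℤ, (S.filter (fun p => (p.1 : ℤ) - (p.2 : ℤ) = d)).card ≤ c

/-- `S` is a toroidal `(n, c)`-placement: a set of `n * c` cells `(i, j)` of the torus
`ℤ/n × ℤ/n` such that every row, every column and every broken diagonal `i + j = k` or
`i - j = k` (modulo `n`) contains at most `c` cells of `S`. -/
structure IsToroidalPlacement (n c : ℕ) (S : Finset (ZMod n × ZMod n)) : Prop where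
  card : S.card = n * c
  rows : ∀ k, (S.filter (fun x => x.1 = k)).card ≤ c
  columns : ∀ k, (S.filter (fun x => x.2 = k)).card ≤ c
  antidiagonals : ∀ k, (S.filter (fun x => x.1 + x.2 = k)).card ≤ c
  diagonals : ∀ k, (S.filter (fun x => x.1 - x.2 = k)).card ≤ c

/-- The colouring `f` of the cells of the `n × n` torus with `m` colours has, for every colour
`t`, exactly `l t` cells of colour `t` in every row, every column and every broken diagonal of
either direction (a pandiagonal frequency square of type `l`). -/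
structure IsPandiagonal {n m : ℕ} [NeZero n] (l : Fin m → ℕ) (f : ZMod n → ZMod n → Fin m) :
    Prop where
  rows : ∀ t k, (univ.filter (fun j => f k j = t)).card = l t
  columns : ∀ t k, (univ.filter (fun i => f i k = t)).card = l t
  antidiagonals : ∀ t k, (univ.filter (fun i => f i (k - i) = t)).card = l t
  diagonals : ∀ t k, (univ.filter (fun i => f i (i - k) = t)).card = l t

/-- **Complete classification, planar and toroidal.**
(1) For all `c ≤ n`, an `(n, c)`-placement exists if and only if `(n, c)` is not `(2, 1)` or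
`(3, 1)`.
(2) For all `n ≥ 1` and `c ≤ n`, a toroidal `(n, c)`-placement exists if and only if `c` is even
if `n` is even, and `3 ∣ c` if `3 ∣ n`.
(3) The whole `n × n` torus can be decomposed into toroidal placements with `l 0, l 1, …` coins
in every line if and only if the `l t` add up to `n` and satisfy the conditions of (2). -/
theorem result :
    (∀ n c : ℕ, c ≤ n →
      ((∃ S : Finset (ℕ × ℕ), IsPlacement n c S) ↔ ¬ (c = 1 ∧ (n = 2 ∨ n = 3)))) ∧
    (∀ (n c : ℕ) [NeZero n], c ≤ n →
      ((∃ S : Finset (ZMod n × ZMod n), IsToroidalPlacement n c S) ↔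
        (2 ∣ n → 2 ∣ c) ∧ (3 ∣ n → 3 ∣ c))) ∧
    (∀ (n m : ℕ) [NeZero n] (l : Fin m → ℕ),
      ((∃ f : ZMod n → ZMod n → Fin m, IsPandiagonal l f) ↔
        ∑ t, l t = n ∧ ∀ t, (2 ∣ n → 2 ∣ l t) ∧ (3 ∣ n → 3 ∣ l t))) := by
  open Pool.Agent.KS6_19.CP.Tor in
  refine ⟨fun n c hc => ⟨?_, fun h => ?_⟩, fun n c _ hc => ⟨?_, fun h => ?_⟩,
    fun n m _ l => ⟨?_, ?_⟩⟩
  · rintro ⟨S, h1, h2, h3, h4, h5, h6⟩ ⟨rfl, hn⟩
    exact small_none n hn S ⟨h1, h2, h3, h4, h5, h6⟩
  · rcases Nat.lt_or_ge n 4 with hn | hn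
    · obtain ⟨S, h1, h2, h3, h4, h5, h6⟩ := small_some n c hn hc h
      exact ⟨S, h1, h2, h3, h4, h5, h6⟩
    · obtain ⟨S, h1, h2, h3, h4, h5, h6⟩ :=
        Pool.Agent.Results.MP_712a2d_co.CoinPlacements.result n c hn hc
      exact ⟨S, h1, h2, h3, h4, h5, h6⟩
  · rintro ⟨S, h0, h1, h2, h3, h4⟩
    exact necessary (exact_of_le h0 (fun x => x.1) h1) (exact_of_le h0 (fun x => x.2) h2)
      (exact_of_le h0 (fun x => x.1 + x.2) h3) (exact_of_le h0 (fun x => x.1 - x.2) h4)
  · have hl := lines (n := n) c 0 (by omega) h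
    let P : ZMod n → ZMod n → Prop := fun i j => 0 ≤ (j - 2 * i).val ∧ (j - 2 * i).val < 0 + c
    refine ⟨univ.filter fun x => P x.1 x.2, ?_, fun k => ?_, fun k => ?_, fun k => ?_,
      fun k => ?_⟩
    · have h1 := card_eq_sum_card_fiberwise
        (s := (univ.filter fun x : ZMod n × ZMod n => P x.1 x.2))
        (t := (univ : Finset (ZMod n))) (f := fun x => x.1) (fun _ _ => by simp)
      rw [h1, sum_congr rfl (fun k _ => (card_fst P k).trans (hl k).1)]
      simp [ZMod.card]
    · exact ((card_fst P k).trans (hl k).1).le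
    · exact ((card_snd P k).trans (hl k).2.1).le
    · exact ((card_add P k).trans (hl k).2.2.1).le
    · exact ((card_sub P k).trans (hl k).2.2.2).le
  · rintro ⟨f, h1, h2, h3, h4⟩
    refine ⟨?_, fun t => ?_⟩
    · have h5 := card_eq_sum_card_fiberwise (s := (univ : Finset (ZMod n)))
        (t := (univ : Finset (Fin m))) (f := fun j => f 0 j) (fun _ _ => by simp)
      rw [card_univ, ZMod.card] at h5
      rw [h5]
      exact (sum_congr rfl fun t _ => h1 t 0).symm
    · let P : ZMod n → ZMod n → Prop := fun i j => f i j = t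
      exact necessary (S := univ.filter fun x : ZMod n × ZMod n => P x.1 x.2)
        (fun k => (card_fst P k).trans (h1 t k)) (fun k => (card_snd P k).trans (h2 t k))
        (fun k => (card_add P k).trans (h3 t k)) (fun k => (card_sub P k).trans (h4 t k))
  · rintro ⟨hs, hl⟩
    refine ⟨fun i j => colour l hs (j - 2 * i), fun t k => ?_, fun t k => ?_, fun t k => ?_,
      fun t k => ?_⟩ <;>
    simp only [colour_iff l hs]
    · exact (lines (l t) (off l t) (off_add_le l hs t) (hl t) k).1
    · exact (lines (l t) (off l t) (off_add_le l hs t) (hl t) k).2.1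
    · exact (lines (l t) (off l t) (off_add_le l hs t) (hl t) k).2.2.1
    · exact (lines (l t) (off l t) (off_add_le l hs t) (hl t) k).2.2.2

end Pool.Agent.Results.MP_712a2d_co.ToroidalClassification
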